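import Pool.Agent.H591R2.Egy.Final

/-!
# Optimal Egyptian fractions are hard to compute

`minLen x y` is the minimum length `L(x/y)` and `minDen x y` the minimum `D(x/y)` of the largest
denominator of an Egyptian fraction representation of `x/y` (`Pool.Agent.H591R2.Egy.Defs`).

The first part is a polynomial-time reduction with one-sided error of an arbitrary problem in `NP` to
the approximate computation of `L` and of `D` (both with a gap `3/2`); the other parts say that a
polynomial-time algorithm for `L` or for `D`, even one which only approximates them within a factor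
smaller than `3/2`, or one for one of the two decision problems, would give `NP ⊆ RP ∩ coRP`.

The classes `RP` and `coRP` are defined in `Pool.Agent.H591R2.Egy.Main`, the notion `ApproxPoly` in
`Pool.Agent.H591R2.Egy.Final`.
-/

namespace Pool.Agent.Results.MP_a692c2_lc.EgyptianHard

open Pool.Agent.NPC Pool.Agent.H591R2.Egy

theorem result :
    -- the reduction
    (∀ A : Set (List Bool), InNP A → ∀ K : ℕ,
      ∃ (F : List Bool → ℕ × ℕ) (p : Polynomial ℕ), PolyTime (fun z => bits (F z)) ∧
        (∀ w r : List Bool,
          0 < (F (pairBits w r)).1 ∧ (F (pairBits w r)).1 < (F (pairBits w r)).2) ∧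
        (∀ w r : List Bool, w ∈ A →
          minLen (F (pairBits w r)).1 (F (pairBits w r)).2 ≤ 2 ∧
          2 ^ (w.length + K) * ((F (pairBits w r)).1 *
            minDen (F (pairBits w r)).1 (F (pairBits w r)).2) ≤
            (2 ^ (w.length + K + 1) + 1) * (F (pairBits w r)).2) ∧
        (∀ w : List Bool, w ∉ A →
          2 ^ (w.length + K) * Nat.card {r : List Bool // r.length = p.eval w.length ∧
            ¬ (3 ≤ minLen (F (pairBits w r)).1 (F (pairBits w r)).2 ∧
              3 * (F (pairBits w r)).2 ≤ (F (pairBits w r)).1 *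
                minDen (F (pairBits w r)).1 (F (pairBits w r)).2)} ≤ 2 ^ (p.eval w.length))) ∧
    -- computing or approximating the minimum length
    ((∃ c : ℚ, c < 3 / 2 ∧ ApproxPoly minLen c) →
      ∀ A : Set (List Bool), InNP A → InRP A ∧ InCoRP A) ∧
    -- computing or approximating the minimum largest denominator
    ((∃ c : ℚ, c < 3 / 2 ∧ ApproxPoly minDen c) →
      ∀ A : Set (List Bool), InNP A → InRP A ∧ InCoRP A) ∧
    -- the decision problems
    (InPP (fun x : ℕ × ℕ => 0 < x.1 ∧ x.1 < x.2 ∧ minLen x.1 x.2 ≤ 2) →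
      ∀ A : Set (List Bool), InNP A → InRP A ∧ InCoRP A) ∧
    (InPP (fun x : (ℕ × ℕ) × ℕ => 0 < x.1.1 ∧ x.1.1 < x.1.2 ∧ minDen x.1.1 x.1.2 ≤ x.2) →
      ∀ A : Set (List Bool), InNP A → InRP A ∧ InCoRP A) :=
  ⟨fun _ hA K => reduction hA K, fun ⟨_, hc, h⟩ A hA => len_collapse hc h A hA,
    fun ⟨_, hc, h⟩ A hA => den_collapse hc h A hA, len_decision, den_decision⟩

end Pool.Agent.Results.MP_a692c2_lc.EgyptianHard
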